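import Mathlib
import Pool.Agent.H.MP_55e6a3_gt.A

set_option autoImplicit false

namespace Pool.Agent.H.MP_c8e566_gt

open Set Filter Topology Cardinal Pool.Agent.H.MP_55e6a3_gt

abbrev C : Type := ℕ → Bool

/-- Silver conditions. -/
structure Sv where
  a : C
  B : Set ℕ
  h : B.Infinite

def T (m : ℕ) (P : Sv) : Set C := {x | ∀ i ≥ m, i ∉ P.B → x i = P.a i}

def le (m : ℕ) (Q P : Sv) : Prop := ∀ i ≥ m, (i ∈ Q.B → i ∈ P.B) ∧ (i ∉ P.B → Q.a i = P.a i)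

theorem le.rfl {m : ℕ} {P : Sv} : le m P P := fun _ _ => ⟨id, fun _ => _root_.rfl⟩

theorem le.sub {m : ℕ} {Q P : Sv} (h : le m Q P) : T m Q ⊆ T m P := fun _ hx i hi h1 =>
  (hx i hi fun h2 => h1 ((h i hi).1 h2)).trans ((h i hi).2 h1)

theorem le.trans {m : ℕ} {R Q P : Sv} (h : le m R Q) (h' : le m Q P) : le m R P := fun i hi =>
  ⟨fun h1 => (h' i hi).1 ((h i hi).1 h1), fun h1 =>
    ((h i hi).2 fun h2 => h1 ((h' i hi).1 h2)).trans ((h' i hi).2 h1)⟩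

theorem le.mono {m k : ℕ} {Q P : Sv} (h : le m Q P) (hk : m ≤ k) : le k Q P := fun i hi =>
  h i (hk.trans hi)

theorem Tmono {m k : ℕ} {P : Sv} (hk : m ≤ k) : T m P ⊆ T k P := fun _ hx i hi =>
  hx i (hk.trans hi)

def cut (m : ℕ) (x : C) (Q : Sv) : Sv := ⟨x, Q.B \ Iio m, Q.h.diff (finite_Iio m)⟩

def pat (m : ℕ) (x y : C) : C := fun i => if i < m then x i else y i

theorem fixle {m : ℕ} {Q P : Sv} (h : le m Q P) : le 0 (cut m (pat m P.a Q.a) Q) P := by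
  intro i _
  simp only [cut, pat, mem_diff, mem_Iio, not_lt]
  refine ⟨fun h1 => (h i h1.2).1 h1.1, fun h1 => ?_⟩
  split_ifs with h2
  · rfl
  · exact (h i (not_lt.1 h2)).2 h1

theorem fixle' (m : ℕ) (x : C) (Q : Sv) : le m (cut m (pat m x Q.a) Q) Q := fun i hi =>
  ⟨fun h => h.1, fun _ => if_neg (not_lt.2 hi)⟩

theorem finE (m : ℕ) (z : C) : {x : C | ∀ i ≥ m, x i = z i}.Finite := by
  refine Set.Finite.of_finite_image (f := fun x (i : Fin m) => x i) (toFinite _) ?_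
  intro x hx y hy h
  funext i
  by_cases hi : i < m
  · exact congrFun h ⟨i, hi⟩
  · rw [hx i (not_lt.1 hi), hy i (not_lt.1 hi)]

theorem fusion (K : Sv → Prop) (R : ℕ → ℕ → Sv → Prop) (P0 : Sv) (h0 : K P0)
    (st : ∀ n m P, K P → ∃ P', K P' ∧ le 0 P' P ∧ R n m P') :
    ∃ Q, le 0 Q P0 ∧ ∀ n, ∃ m ≥ n, ∃ P', R n m P' ∧ le m Q P' := by
  choose! F F1 F2 F3 using st
  have hb : ∀ (P : Sv) (m : ℕ), ∃ b ∈ P.B, m ≤ b := fun P m => by
    obtain ⟨b, h1, h2⟩ := P.h.exists_gt m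
    exact ⟨b, h1, h2.le⟩
  choose b b1 b2 using hb
  let s : ℕ → Sv × ℕ := fun n =>
    Nat.rec (P0, 0) (fun n p => (F n p.2 p.1, b (F n p.2 p.1) p.2 + 1)) n
  have s1 : ∀ n, (s (n + 1)).1 = F n (s n).2 (s n).1 := fun _ => rfl
  have s2 : ∀ n, (s (n + 1)).2 = b (s (n + 1)).1 (s n).2 + 1 := fun _ => rfl
  have k1 : ∀ n, K (s n).1 := fun n => by
    induction n with
    | zero => exact h0
    | succ n ih => exact F1 _ _ _ ih
  have k2 : ∀ n l, n ≤ l → le 0 (s l).1 (s n).1 := fun n l h => by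
    induction h with
    | refl => exact le.rfl
    | step _ ih => exact (F2 _ _ _ (k1 _)).trans ih
  have k3 : StrictMono fun n => (s n).2 := strictMono_nat_of_lt_succ fun n => by
    rw [s2]; exact Nat.lt_succ_of_le (b2 _ _)
  have k4 : StrictMono fun n => b (s (n + 1)).1 (s n).2 := strictMono_nat_of_lt_succ fun n =>
    (Nat.lt_succ_self _).trans_le ((s2 n).ge.trans (b2 _ _))
  let Q : Sv := ⟨fun i => (s (i + 1)).1.a i, _, infinite_range_of_injective k4.injective⟩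
  have k5 : ∀ n, le (s n).2 Q (s (n + 1)).1 := fun n i hi => by
    refine ⟨?_, fun h => (k2 (n + 1) (i + 1) (Nat.succ_le_succ ((k3.id_le n).trans hi)) i
      (Nat.zero_le _)).2 h⟩
    rintro ⟨l, rfl⟩
    refine (k2 (n + 1) (l + 1) ?_ _ (Nat.zero_le _)).1 (b1 _ _)
    by_contra h
    have := k3.monotone (show l + 1 ≤ n by omega)
    simp only [s2] at this hi
    omega
  exact ⟨Q, (k5 0).trans (k2 0 1 (Nat.zero_le _)), fun n => ⟨_, k3.id_le n, _, F3 _ _ _ (k1 n), k5 n⟩⟩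

def Dec (m : ℕ) (U : Set C) (P : Sv) : Prop :=
  ∀ x ∈ T m P, ∀ y ∈ T m P, (∀ i < m, x i = y i) → x ∈ U → y ∈ U

theorem Dec.mono {m : ℕ} {U : Set C} {P Q : Sv} (h : Dec m U P) (h' : le m Q P) : Dec m U Q :=
  fun x hx y hy => h x (h'.sub hx) y (h'.sub hy)

theorem dec1 {U : Set C} (hU : ∀ P, ∃ Q, le 0 Q P ∧ Dec 0 U Q) (m : ℕ) (P : Sv) :
    ∃ Q, le 0 Q P ∧ Dec m U Q := by
  have h : ∀ S : Set C, S.Finite → ∃ Q, le 0 Q P ∧ ∀ s ∈ S, ∀ x ∈ T m Q, ∀ y ∈ T m Q,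
      (∀ i < m, x i = s i) → (∀ i < m, y i = s i) → x ∈ U → y ∈ U := by
    intro S hS
    induction S, hS using Set.Finite.induction_on with
    | empty => exact ⟨P, le.rfl, by simp⟩
    | @insert s S _ _ ih =>
      obtain ⟨Q0, q1, q2⟩ := ih
      obtain ⟨Q1, q3, q4⟩ := hU (cut m (pat m s Q0.a) Q0)
      have q5 := fixle ((q3.mono (Nat.zero_le m)).trans (fixle' m s Q0))
      have q6 : ∀ x ∈ T m (cut m (pat m Q0.a Q1.a) Q1), (∀ i < m, x i = s i) → x ∈ T 0 Q1 := by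
        intro x hx h i _ hi
        by_cases h1 : i < m
        · rw [h i h1, (q3 i (Nat.zero_le _)).2 fun h => h.2 h1]
          exact (if_pos h1).symm
        · exact (fixle' m _ Q1).sub hx i (not_lt.1 h1) hi
      refine ⟨_, q5.trans q1, ?_⟩
      rintro t (rfl | ht) x hx y hy h1 h2
      · exact q4 x (q6 x hx h1) y (q6 y hy h2) (by simp)
      · exact q2 t ht x ((q5.mono (Nat.zero_le m)).sub hx) y ((q5.mono (Nat.zero_le m)).sub hy) h1 h2
  obtain ⟨Q, q1, q2⟩ := h _ (finE m fun _ => false)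
  exact ⟨Q, q1, fun x hx y hy h1 => q2 (pat m x fun _ => false)
    (fun i hi => if_neg (not_lt.2 hi)) x hx y hy (fun i hi => (if_pos hi).symm)
    fun i hi => (h1 i hi).symm.trans (if_pos hi).symm⟩

theorem cutle {k m : ℕ} {x : C} {Q : Sv} (h : x ∈ T k Q) : le k (cut m x Q) Q := fun i hi =>
  ⟨fun h => h.1, h i hi⟩

theorem cyl {U : Set C} (hU : IsOpen U) {x : C} (hx : x ∈ U) :
    ∃ m, ∀ y : C, (∀ i < m, y i = x i) → y ∈ U := by
  obtain ⟨_, ⟨y, m, rfl⟩, h1, h2⟩ :=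
    (PiNat.isTopologicalBasis_cylinders fun _ => Bool).exists_subset_of_mem_open hx hU
  exact ⟨m, fun z hz => h2 fun i hi => (hz i hi).trans (h1 i hi)⟩

theorem dec {U : Set C} (hU : MeasurableSet U) : ∀ (m : ℕ) (P : Sv), ∃ Q, le 0 Q P ∧ Dec m U Q := by
  apply dec1
  induction U, hU using MeasurableSet.induction_on_open with
  | isOpen U hU =>
    intro P
    by_cases h : ∃ x ∈ T 0 P, x ∈ U
    · obtain ⟨x, h1, h2⟩ := h
      obtain ⟨m, hm⟩ := cyl hU h2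
      exact ⟨_, cutle (m := m) h1, fun _ _ y hy _ _ => hm y fun i hi =>
        hy i (Nat.zero_le _) fun h => h.2 hi⟩
    · exact ⟨P, le.rfl, fun x hx _ _ _ h1 => (h ⟨x, hx, h1⟩).elim⟩
  | compl U _ ih =>
    intro P
    obtain ⟨Q, q1, q2⟩ := ih P
    exact ⟨Q, q1, fun x hx y hy _ h1 h2 => h1 (q2 y hy x hx (by simp) h2)⟩
  | iUnion U _ _ ih =>
    intro P
    obtain ⟨Q, q1, q2⟩ := fusion (fun _ => True) (fun n m P => Dec m (U n) P) P trivial
      fun n m P _ => by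
        obtain ⟨Q, q1, q2⟩ := dec1 (ih n) m P
        exact ⟨Q, trivial, q1, q2⟩
    by_cases h : ∃ x ∈ T 0 Q, x ∈ ⋃ n, U n
    · obtain ⟨x, h1, h2⟩ := h
      obtain ⟨n, hn⟩ := mem_iUnion.1 h2
      obtain ⟨m, -, P', p1, p2⟩ := q2 n
      exact ⟨_, (cutle (m := m) h1).trans q1, fun _ _ y hy _ _ => mem_iUnion.2 ⟨n,
        (p1.mono p2) x (Tmono (Nat.zero_le m) h1) y (Tmono (Nat.zero_le m) ((cutle h1).sub hy))
          (fun i hi => (hy i (Nat.zero_le _) fun h => h.2 hi).symm) hn⟩⟩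
    · exact ⟨Q, q1, fun x hx _ _ _ h1 => (h ⟨x, hx, h1⟩).elim⟩

def les (Q P : Sv) : Prop := ∃ m, le m Q P

def St (P : Sv) : Set C := {x | ∃ m, x ∈ T m P}

def E (z : C) : Set C := {x | ∃ m, ∀ i ≥ m, x i = z i}

theorem les.trans {R Q P : Sv} (h : les R Q) (h' : les Q P) : les R P := by
  obtain ⟨m, h⟩ := h
  obtain ⟨k, h'⟩ := h'
  exact ⟨max m k, (h.mono (le_max_left _ _)).trans (h'.mono (le_max_right _ _))⟩

theorem les.sub {Q P : Sv} (h : les Q P) : St Q ⊆ St P := by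
  rintro x ⟨k, hx⟩
  obtain ⟨m, h⟩ := h
  exact ⟨max m k, (h.mono (le_max_left _ _)).sub (Tmono (le_max_right _ _) hx)⟩

theorem cE (z : C) : (E z).Countable := by
  rw [E, ofPred_exists]
  exact countable_iUnion fun m => (finE m z).countable

theorem StE {P : Sv} {x y : C} (hx : x ∈ St P) (hy : y ∈ E x) : y ∈ St P := by
  obtain ⟨m, hx⟩ := hx
  obtain ⟨k, hy⟩ := hy
  exact ⟨max m k, fun i hi h => (hy i (le_of_max_le_right hi)).trans
    (hx i (le_of_max_le_left hi) h)⟩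

theorem lb {ι : Type} [Countable ι] (c : ι → Sv) (hc : ∀ i j, les (c i) (c j) ∨ les (c j) (c i)) :
    ∃ Q, ∀ i, les Q (c i) := by
  cases isEmpty_or_nonempty ι
  · exact ⟨⟨fun _ => false, Set.univ, infinite_univ⟩, fun i => isEmptyElim i⟩
  obtain ⟨e, he⟩ := exists_surjective_nat ι
  obtain ⟨Q, -, q⟩ := fusion (fun P => ∃ i, les (c i) P) (fun n _ P => les P (c (e n))) (c (e 0))
    ⟨e 0, 0, le.rfl⟩ (by
      rintro n - P ⟨i, hi⟩
      obtain ⟨k, ⟨m, h1⟩, h2⟩ : ∃ k, les (c k) P ∧ les (c k) (c (e n)) := by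
        rcases hc i (e n) with h | h
        · exact ⟨i, hi, h⟩
        · exact ⟨e n, h.trans hi, 0, le.rfl⟩
      exact ⟨cut m (pat m P.a (c k).a) (c k), ⟨k, m, fun j hj => ⟨fun h => ⟨h, not_lt.2 hj⟩,
        fun _ => (if_neg (not_lt.2 hj)).symm⟩⟩, fixle h1, les.trans ⟨m, fixle' _ _ _⟩ h2⟩)
  refine ⟨Q, fun i => ?_⟩
  obtain ⟨n, rfl⟩ := he i
  obtain ⟨m, -, P, h1, h2⟩ := q n
  exact les.trans ⟨m, h2⟩ h1

def Sp (f : ℕ → ℕ) (P : Sv) : Prop := ∀ b ∈ P.B, ∀ b' ∈ P.B, b < b' → f b ≤ b'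

theorem sparse (f : ℕ → ℕ) (P : Sv) : ∃ Q, le 0 Q P ∧ Sp f Q := by
  obtain ⟨g, g1, g2⟩ := exists_seq_of_forall_finset_exists (· ∈ P.B)
    (fun b b' => b < b' ∧ f b ≤ b') fun s _ => by
      obtain ⟨b, h1, h2⟩ := P.h.exists_gt (s.sup fun b => max b (f b))
      refine ⟨b, h1, fun x hx => ?_⟩
      have := (Finset.le_sup (f := fun b => max b (f b)) hx).trans_lt h2
      exact ⟨(le_max_left _ _).trans_lt this, ((le_max_right _ _).trans_lt this).le⟩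
  have g3 : StrictMono g := fun m n h => (g2 m n h).1
  refine ⟨⟨P.a, range g, infinite_range_of_injective g3.injective⟩, fun i _ =>
    ⟨?_, fun _ => rfl⟩, ?_⟩
  · rintro ⟨n, rfl⟩
    exact g1 n
  · rintro _ ⟨m, rfl⟩ _ ⟨n, rfl⟩ h
    exact (g2 m n (g3.lt_iff_lt.1 h)).2

theorem diag (P : Sv) {A : Set C} (hA : A.Countable) :
    ∃ y ∈ T 0 P, ∀ x ∈ A, ∀ m, ∃ i ≥ m, y i ≠ x i := by
  classical
  obtain ⟨e, he⟩ := (hA.insert P.a).exists_eq_range (insert_nonempty _ _)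
  refine ⟨fun i => if i ∈ P.B then !(e (Nat.count (· ∈ P.B) i).unpair.1 i) else P.a i,
    fun i _ h => if_neg h, fun x hx m => ?_⟩
  obtain ⟨n, rfl⟩ := he.le (Or.inr hx)
  refine ⟨Nat.nth (· ∈ P.B) (n.pair m), (Nat.right_le_pair n m).trans
    ((Nat.nth_strictMono P.h).id_le _), ?_⟩
  have h1 : Nat.nth (· ∈ P.B) (n.pair m) ∈ P.B := Nat.nth_mem_of_infinite (p := (· ∈ P.B)) P.h _
  have h2 := Nat.count_nth_of_infinite (p := (· ∈ P.B)) P.h (n.pair m)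
  simp [h1, h2]

theorem inter (R : ℕ → Sv → Prop) (P0 : Sv) (st : ∀ n P, ∃ P', le 0 P' P ∧ R n P') :
    ∃ z ∈ T 0 P0, ∀ n, ∃ P', le 0 P' P0 ∧ R n P' ∧ z ∈ T 0 P' := by
  choose F F1 F2 using st
  let s : ℕ → Sv := fun n => Nat.rec P0 (fun n p => F n p) n
  have k : ∀ P, IsClosed (T 0 P) := fun P => by
    simp only [T, ofPred_forall]
    exact isClosed_iInter fun i => isClosed_iInter fun _ => isClosed_iInter fun _ =>
      isClosed_eq (continuous_apply i) continuous_const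
  have k2 : ∀ n, le 0 (s n) P0 := fun n => by
    induction n with
    | zero => exact le.rfl
    | succ n ih => exact (F1 _ _).trans ih
  obtain ⟨z, hz⟩ := IsCompact.nonempty_iInter_of_sequence_nonempty_isCompact_isClosed
    (fun n => T 0 (s n)) (fun n => (F1 n (s n)).sub) (fun n => ⟨(s n).a, fun _ _ _ => rfl⟩)
    (k _).isCompact fun n => k _
  exact ⟨z, mem_iInter.1 hz 0, fun n => ⟨s (n + 1), k2 (n + 1), F2 _ _, mem_iInter.1 hz (n + 1)⟩⟩

theorem stage {A : Set C} (hA : A.Countable) (Q : Sv) (U : ℕ → ℕ → Set C)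
    (hU : ∀ n j, MeasurableSet (U n j)) (f : ℕ → ℕ) :
    ∃ d : Sv × C × C, les d.1 Q ∧ d.2.1 ∈ St Q ∧ d.2.2 ∈ St d.1 ∧
      (∀ x ∈ A, ∀ m, ∃ i ≥ m, d.2.2 i ≠ x i) ∧ Sp f d.1 ∧
      ((∃ n F, F.Finite ∧ F ⊆ A ∪ E d.2.1 ∧ ∀ j, ¬ F ⊆ U n j) ∨
        (d.2.1 ∈ St d.1 ∧ ∃ g : ℕ → ℕ, ∀ x ∈ A ∪ St d.1, ∀ᶠ n in atTop, x ∈ U n (g n))) := by
  by_cases h : ∀ n m F P, F.Finite → F ⊆ A → le 0 P Q →
      ∃ j P', le 0 P' P ∧ F ⊆ U n j ∧ T m P' ⊆ U n j
  · obtain ⟨e, he⟩ := (hA.insert Q.a).exists_eq_range (insert_nonempty _ _)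
    obtain ⟨Q1, q1, q2⟩ := fusion (fun P => le 0 P Q)
      (fun n m P => ∃ j, A ∩ e '' Iic n ⊆ U n j ∧ T m P ⊆ U n j) Q le.rfl fun n m P hP => by
        obtain ⟨j, P', h1, h2⟩ := h n m (A ∩ e '' Iic n) P
          (((finite_Iic n).image e).inter_of_right _) inter_subset_left hP
        exact ⟨P', h1.trans hP, h1, j, h2⟩
    choose m m1 P hP m2 using q2
    choose g g1 g2 using hP
    obtain ⟨Q2, q3, q4⟩ := sparse f Q1
    obtain ⟨y, y1, y2⟩ := diag Q2 hA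
    refine ⟨(Q2, y, y), ⟨0, q3.trans q1⟩, ⟨0, (q3.trans q1).sub y1⟩, ⟨0, y1⟩, y2, q4,
      Or.inr ⟨⟨0, y1⟩, g, ?_⟩⟩
    rintro x (hx | ⟨k, hx⟩)
    · obtain ⟨k, rfl⟩ := he.le (Or.inr hx)
      exact (eventually_ge_atTop k).mono fun n hn => g1 n ⟨hx, k, hn, rfl⟩
    · exact (eventually_ge_atTop k).mono fun n hn => g2 n ((m2 n).sub
        (Tmono (hn.trans (m1 n)) ((q3.mono (Nat.zero_le k)).sub hx)))
  · push Not at h
    obtain ⟨n, m, F, P, h1, h2, h3, h4⟩ := h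
    obtain ⟨z, z1, z2⟩ := inter (fun j P => Dec m (U n j) P) P fun j P => dec (hU n j) m P
    obtain ⟨Q2, q3, q4⟩ := sparse f Q
    obtain ⟨y, y1, y2⟩ := diag Q2 hA
    refine ⟨(Q2, z, y), ⟨0, q3⟩, ⟨0, h3.sub z1⟩, ⟨0, y1⟩, y2, q4, Or.inl ⟨n,
      F ∪ {x | ∀ i ≥ m, x i = z i}, h1.union (finE m z),
      union_subset_union h2 fun x hx => ⟨m, hx⟩, fun j hj => ?_⟩⟩
    obtain ⟨P', p1, p2, p3⟩ := z2 j
    have h5 : ∀ x, ∀ i ≥ m, pat m x z i = z i := fun x i hi => if_neg (not_lt.2 hi)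
    exact h4 j P' p1 (subset_union_left.trans hj) fun x hx => p2 (pat m x z)
      (fun i hi h => (h5 x i hi).trans (p3 i (Nat.zero_le _) h)) x hx (fun i hi => if_pos hi)
      (hj (Or.inr (h5 x)))

theorem main (ch : continuum = (aleph 1 : Cardinal.{0})) : ∃ X Y : Set C, Y ⊆ X ∧ Y.Infinite ∧
    (∀ U : ℕ → ℕ → Set C, (∀ n j, MeasurableSet (U n j)) →
      (∀ n F, F.Finite → F ⊆ X → ∃ j, F ⊆ U n j) →
        ∃ g : ℕ → ℕ, ∀ x ∈ X, ∀ᶠ n in atTop, x ∈ U n (g n)) ∧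
    (∀ x ∈ Y, ∀ y ∈ Y, x ≠ y → ∀ m, ∃ i ≥ m, x i ≠ y i) ∧
    (∀ f : ℕ → ℕ, ∃ x ∈ Y, ∃ y ∈ Y, x ≠ y ∧ ∃ m, ∀ i j, m ≤ i → i < j → x i ≠ y i → x j ≠ y j →
      f i ≤ j) ∧ ∀ x ∈ X, E x ⊆ X := by
  obtain ⟨e, he⟩ : ∃ e : I → (ℕ → ℕ → {U : Set C | MeasurableSet U}) × (ℕ → ℕ),
      Function.Surjective e := by
    have h1 : #{U : Set C | MeasurableSet U} ≤ continuum := by
      obtain ⟨b, b1, b2⟩ := MeasurableSpace.CountablyGenerated.isCountablyGenerated (α := C)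
      have := MeasurableSpace.cardinal_measurableSet_le_continuum
        (b1.le_aleph0.trans aleph0_le_continuum)
      rwa [← b2] at this
    have : Nonempty {U : Set C | MeasurableSet U} := ⟨⟨∅, (MeasurableSet.empty : MeasurableSet (∅ : Set C))⟩⟩
    obtain ⟨j⟩ : #((ℕ → ℕ → {U : Set C | MeasurableSet U}) × (ℕ → ℕ)) ≤ #I := by
      rw [mkI, ← ch]
      simp only [mk_prod, lift_id, ← power_def, mk_nat, aleph0_power_aleph0]
      refine (mul_le_mul' (power_le_power_right (power_le_power_right h1)) le_rfl).trans ?_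
      simp
    exact ⟨_, Function.invFun_surjective j.injective⟩
  let A : ∀ α : I, (Iio α → Sv × C × C) → Set C := fun α r => ⋃ β, E (r β).2.1 ∪ E (r β).2.2
  have h1 : ∀ (α : I) (r : Iio α → Sv × C × C), ∃ Q, (∀ β γ, β < γ → les (r γ).1 (r β).1) →
      ∀ β, les Q (r β).1 := fun α r => by
    by_cases h : ∀ β γ, β < γ → les (r γ).1 (r β).1
    · have := (cIio α).to_subtype
      obtain ⟨Q, hQ⟩ := lb (fun β => (r β).1) fun β γ => by
        rcases lt_trichotomy β γ with h1 | rfl | h1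
        · exact Or.inr (h _ _ h1)
        · exact Or.inl ⟨0, le.rfl⟩
        · exact Or.inl (h _ _ h1)
      exact ⟨Q, fun _ => hQ⟩
    · exact ⟨⟨fun _ => false, Set.univ, infinite_univ⟩, fun h' => (h h').elim⟩
  choose Q hQ using h1
  choose F F1 F2 F3 F4 F5 F6 using fun (α : I) (r : Iio α → Sv × C × C) =>
    haveI := (cIio α).to_subtype
    stage (A := A α r) (countable_iUnion fun β => (cE _).union (cE _)) (Q α r)
      (fun n j => (e α).1 n j) (fun n j => ((e α).1 n j).2) (e α).2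
  obtain ⟨c, hc⟩ : ∃ c : I → Sv × C × C, ∀ α, c α = F α fun β => c β :=
    ⟨wellFounded_lt.fix fun α r => F α fun β => r β β.2, fun α => wellFounded_lt.fix_eq _ α⟩
  have k1 : ∀ α β, β < α → les (Q α fun γ => c γ) (c β).1 := by
    intro α
    induction α using WellFoundedLT.induction with
    | ind α ih =>
      refine fun β hβ => hQ α (fun γ => c γ) (fun β γ h => ?_) ⟨β, hβ⟩
      rw [hc γ]
      exact (F1 _ _).trans (ih γ γ.2 β h)
  have k2 : ∀ α β, β ≤ α → (c α).2.2 ∈ St (c β).1 := fun α β h => by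
    rcases h.eq_or_lt with rfl | h
    · rw [hc β]; exact F3 _ _
    · rw [hc α]; exact ((F1 _ _).trans (k1 α β h)).sub (F3 _ _)
  have k3 : ∀ α β, β < α → ∀ m, ∃ i ≥ m, (c α).2.2 i ≠ (c β).2.2 i := fun α β h => by
    have := F4 α (fun γ => c γ) (c β).2.2 (mem_iUnion.2 ⟨⟨β, h⟩, Or.inr ⟨0, fun _ _ => rfl⟩⟩)
    rwa [← hc α] at this
  have k4 : ∀ α β, (c α).2.2 ≠ (c β).2.2 ∨ α ≠ β → ∀ m, ∃ i ≥ m, (c α).2.2 i ≠ (c β).2.2 i := by
    intro α β h m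
    rcases lt_trichotomy α β with h1 | rfl | h1
    · obtain ⟨i, h2, h3⟩ := k3 β α h1 m
      exact ⟨i, h2, h3.symm⟩
    · simp at h
    · exact k3 α β h1 m
  have k5 : Function.Injective fun α => (c α).2.2 := fun α β h => by
    by_contra h1
    obtain ⟨i, -, h2⟩ := k4 α β (Or.inr h1) 0
    exact h2 (congrFun h i)
  have : Infinite I := by rw [Cardinal.infinite_iff, mkI]; exact aleph0_le_aleph 1
  refine ⟨⋃ α, E (c α).2.1 ∪ E (c α).2.2, range fun α => (c α).2.2, ?_,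
    infinite_range_of_injective k5, fun U hU hX => ?_, ?_, fun f => ?_, fun x hx y hy => ?_⟩
  · rintro _ ⟨α, rfl⟩
    exact mem_iUnion.2 ⟨α, Or.inr ⟨0, fun _ _ => rfl⟩⟩
  · obtain ⟨α, hα⟩ := he (fun n j => ⟨U n j, hU n j⟩, id)
    have h6 := F6 α fun γ => c γ
    rw [← hc α, hα] at h6
    rcases h6 with ⟨n, G, g1, g2, g3⟩ | ⟨g1, g, g2⟩
    · obtain ⟨j, hj⟩ := hX n G g1 (g2.trans (union_subset (iUnion_subset fun β =>
        subset_iUnion (fun α => E (c α).2.1 ∪ E (c α).2.2) β)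
        (subset_union_left.trans (subset_iUnion (fun α => E (c α).2.1 ∪ E (c α).2.2) α))))
      exact (g3 j hj).elim
    · refine ⟨g, fun x hx => g2 x ?_⟩
      obtain ⟨β, hβ⟩ := mem_iUnion.1 hx
      rcases lt_or_ge β α with h | h
      · exact Or.inl (mem_iUnion.2 ⟨⟨β, h⟩, hβ⟩)
      rcases hβ with hβ | hβ
      · refine Or.inr (StE ?_ hβ)
        rcases h.eq_or_lt with rfl | h
        · exact g1
        · rw [hc β]; exact (k1 β α h).sub (F2 _ _)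
      · exact Or.inr (StE (k2 β α h) hβ)
  · rintro _ ⟨α, rfl⟩ _ ⟨β, rfl⟩ h
    exact k4 α β (Or.inl h)
  · obtain ⟨α, hα⟩ := he (fun _ _ => ⟨∅, (MeasurableSet.empty : MeasurableSet (∅ : Set C))⟩, f)
    obtain ⟨β, hβ⟩ := bddI (countable_singleton α)
    have h5 := F5 α fun γ => c γ
    rw [← hc α, hα] at h5
    obtain ⟨m, hm⟩ := k2 α α le_rfl
    obtain ⟨k, hk⟩ := k2 β α (hβ α rfl).le
    have h6 : ∀ i, max m k ≤ i → (c α).2.2 i ≠ (c β).2.2 i → i ∈ (c α).1.B := fun i hi h => by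
      by_contra h1
      exact h ((hm i (le_of_max_le_left hi) h1).trans (hk i (le_of_max_le_right hi) h1).symm)
    exact ⟨_, ⟨α, rfl⟩, _, ⟨β, rfl⟩, k5.ne (hβ α rfl).ne, max m k, fun i j h1 h2 h3 h4 =>
      h5 i (h6 i h1 h3) j (h6 j (h1.trans h2.le) h4) h2⟩
  · obtain ⟨α, hα⟩ := mem_iUnion.1 hx
    obtain ⟨k, hk⟩ := hy
    refine mem_iUnion.2 ⟨α, hα.imp ?_ ?_⟩ <;>
    exact fun ⟨m, hm⟩ => ⟨max m k, fun i hi => (hk i (le_of_max_le_right hi)).trans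
      (hm i (le_of_max_le_left hi))⟩

end Pool.Agent.H.MP_c8e566_gt
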