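import Mathlib
import Pool.Agent.H.MP_c8e566_gt.A

set_option autoImplicit false

namespace Pool.Agent.H.MP_c8e566_gt

open Set Filter Topology Cardinal

/-- Countable Borel covers of `Z` (the whole space is not a member). -/
def BCov (Z : Type) [TopologicalSpace Z] : Set (Set (Set Z)) :=
  {𝒰 | 𝒰.Countable ∧ (∀ U ∈ 𝒰, @MeasurableSet Z (borel Z) U) ∧ ⋃₀ 𝒰 = Set.univ ∧ Set.univ ∉ 𝒰}

/-- Countable Borel omega-covers of `Z`. -/
def BOm (Z : Type) [TopologicalSpace Z] : Set (Set (Set Z)) :=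
  {𝒰 | 𝒰 ∈ BCov Z ∧ ∀ F : Set Z, F.Finite → ∃ U ∈ 𝒰, F ⊆ U}

/-- Countable Borel gamma-covers of `Z`. -/
def BGa (Z : Type) [TopologicalSpace Z] : Set (Set (Set Z)) :=
  {𝒰 | 𝒰 ∈ BCov Z ∧ 𝒰.Infinite ∧ ∀ z : Z, {U ∈ 𝒰 | z ∉ U}.Finite}

def S1 {Z : Type} (𝒜 ℬ : Set (Set (Set Z))) : Prop :=
  ∀ 𝒰 : ℕ → Set (Set Z), (∀ n, 𝒰 n ∈ 𝒜) → ∃ U : ℕ → Set Z, (∀ n, U n ∈ 𝒰 n) ∧ range U ∈ ℬ

def Sfin {Z : Type} (𝒜 ℬ : Set (Set (Set Z))) : Prop :=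
  ∀ 𝒰 : ℕ → Set (Set Z), (∀ n, 𝒰 n ∈ 𝒜) →
    ∃ ℱ : ℕ → Set (Set Z), (∀ n, (ℱ n).Finite ∧ ℱ n ⊆ 𝒰 n) ∧ (⋃ n, ℱ n) ∈ ℬ

/-- The power `X ^ k` as a subset of `ℝ ^ k`. -/
def Pw (X : Set ℝ) (k : ℕ) : Set (Fin k → ℝ) := {x | ∀ i, x i ∈ X}

theorem S1.fin {Z : Type} {𝒜 ℬ : Set (Set (Set Z))} (h : S1 𝒜 ℬ) : Sfin 𝒜 ℬ := fun 𝒰 h𝒰 => by
  obtain ⟨U, h1, h2⟩ := h 𝒰 h𝒰
  exact ⟨fun n => {U n}, fun n => ⟨finite_singleton _, singleton_subset_iff.2 (h1 n)⟩,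
    by rwa [iUnion_singleton_eq_range]⟩

theorem S1.mono {Z : Type} {𝒜 ℬ ℬ' : Set (Set (Set Z))} (h : S1 𝒜 ℬ) (h' : ℬ ⊆ ℬ') :
    S1 𝒜 ℬ' := fun 𝒰 h𝒰 => (h 𝒰 h𝒰).imp fun _ h => ⟨h.1, h' h.2⟩

theorem Sfin.mono {Z : Type} {𝒜 ℬ ℬ' : Set (Set (Set Z))} (h : Sfin 𝒜 ℬ) (h' : ℬ ⊆ ℬ') :
    Sfin 𝒜 ℬ' := fun 𝒰 h𝒰 => (h 𝒰 h𝒰).imp fun _ h => ⟨h.1, h' h.2⟩

theorem ga_om {Z : Type} [TopologicalSpace Z] : BGa Z ⊆ BOm Z := fun 𝒰 h => ⟨h.1, fun F hF => by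
  obtain ⟨U, h1, h2⟩ := h.2.1.exists_notMem_finite (hF.biUnion fun z _ => h.2.2 z)
  refine ⟨U, h1, fun z hz => ?_⟩
  by_contra h3
  exact h2 (mem_biUnion hz ⟨h1, h3⟩)⟩

def Two (n k : ℕ) (x y : C) : Prop := ∃ i j, n ≤ i ∧ i < j ∧ j < k ∧ x i ≠ y i ∧ x j ≠ y j

theorem two {x y : C} (h : ∀ m, ∃ i ≥ m, x i ≠ y i) (n : ℕ) : ∀ᶠ k in atTop, Two n k x y := by
  obtain ⟨i, h1, h2⟩ := h n
  obtain ⟨j, h3, h4⟩ := h (i + 1)
  exact (eventually_gt_atTop j).mono fun k hk => ⟨i, j, h1, h3, hk, h2, h4⟩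

theorem real (ch : continuum = (aleph 1 : Cardinal.{0})) : ∃ X Y : Set ℝ, Y ⊆ X ∧
    (∀ U : ℕ → ℕ → Set ℝ, (∀ n j, MeasurableSet (U n j)) →
      (∀ n F, F.Finite → F ⊆ X → ∃ j, F ⊆ U n j) →
        ∃ g : ℕ → ℕ, ∀ x ∈ X, ∀ᶠ n in atTop, x ∈ U n (g n)) ∧
    (∃ V : ℕ → ℕ → Set (ℝ × ℝ), (∀ n k, MeasurableSet (V n k)) ∧
      (∀ n, ∀ z, ∀ᶠ k in atTop, z ∈ V n k) ∧ (∀ n, Monotone (V n)) ∧
      ∀ g : ℕ → ℕ, ∃ x ∈ X, ∃ y ∈ X, ∀ n, (x, y) ∉ V n (g n)) ∧ ¬ Sfin (BOm Y) (BOm Y) := by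
  classical
  obtain ⟨X, Y, h1, h2, h3, h4, h5, h6⟩ := main ch
  obtain ⟨e, -, e1, e2⟩ := (isClosed_univ (X := ℝ)).exists_nat_bool_injection_of_not_countable
    Cardinal.not_countable_real
  obtain ⟨r, r1, r2⟩ := (e1.isClosedEmbedding e2).measurableEmbedding.exists_measurable_extend
    measurable_id fun _ => inferInstance
  have r3 : ∀ x, r (e x) = x := congrFun r2
  refine ⟨e '' X, e '' Y, image_mono h1, fun U hU hX => ?_, ⟨fun n k =>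
    {z | r z.1 ∈ E (r z.2) ∨ Two n k (r z.1) (r z.2)}, fun n k => ?_, fun n z => ?_,
    fun n k l h z hz => ?_, fun g => ?_⟩, fun hY => ?_⟩
  · obtain ⟨g, hg⟩ := h3 (fun n j => e ⁻¹' U n j) (fun n j => e1.measurable (hU n j))
      fun n F hF hFX => (hX n _ (hF.image e) (image_mono hFX)).imp fun j => image_subset_iff.1
    exact ⟨g, forall_mem_image.2 hg⟩
  · simp only [E, Two, mem_ofPred_eq]
    measurability
  · by_cases h : r z.1 ∈ E (r z.2)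
    · exact Eventually.of_forall fun k => Or.inl h
    · simp only [E, mem_ofPred_eq] at h
      push Not at h
      exact (two h n).mono fun k => Or.inr
  · exact hz.imp_right fun ⟨i, j, a, b, c, d⟩ => ⟨i, j, a, b, c.trans_le h, d⟩
  · obtain ⟨x, hx, y, hy, h7, m, hm⟩ := h5 fun i => (Finset.range (i + 1)).sup g
    have h8 : ∀ i ≥ m, pat m x y i = y i := fun i hi => if_neg (not_lt.2 hi)
    refine ⟨_, ⟨x, h1 hx, rfl⟩, _, ⟨pat m x y, h6 y (h1 hy) ⟨m, h8⟩, rfl⟩, fun n => ?_⟩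
    simp only [mem_ofPred_eq, r3]
    rintro (⟨k, hk⟩ | ⟨i, j, a, b, c, d, d'⟩)
    · obtain ⟨i, h9, h10⟩ := h4 x hx y hy h7 (max m k)
      exact h10 ((hk i (le_of_max_le_right h9)).trans (h8 i (le_of_max_le_left h9)))
    · have h9 : m ≤ i := not_lt.1 fun h => d (if_pos h).symm
      rw [h8 i h9] at d
      rw [h8 j (h9.trans b.le)] at d'
      exact c.not_ge ((Finset.le_sup (f := g) (Finset.mem_range.2 (Nat.lt_succ_of_le a))).trans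
        (hm i j h9 b d d'))
  · let φ : e '' Y → C := fun z => r z
    have φ1 : ∀ z, φ z ∈ Y := by
      rintro ⟨_, y, hy, rfl⟩
      simpa [φ, r3]
    have φ2 : Function.Injective φ := by
      rintro ⟨_, y, hy, rfl⟩ ⟨_, z, hz, rfl⟩ h
      simp only [φ, r3] at h
      simp [h]
    let W : (Σ k : ℕ, Finset (Fin k → Bool)) → Set (e '' Y) := fun p =>
      {z | (fun i : Fin p.1 => φ z i) ∈ p.2}
    let G : ℕ → (Σ k : ℕ, Finset (Fin k → Bool)) → Prop := fun n p => n ≤ p.1 ∧ W p ≠ Set.univ ∧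
      ∀ x ∈ W p, ∀ y ∈ W p, (∀ i < p.1, φ x i = φ y i) ∨ Two n p.1 (φ x) (φ y)
    have w1 : ∀ n F, F.Finite → ∃ U ∈ W '' {p | G n p}, F ⊆ U := fun n F hF => by
      have : Infinite (e '' Y) := (h2.image e2.injOn).to_subtype
      obtain ⟨z, hz⟩ := hF.exists_notMem
      have hF' := hF.insert z
      obtain ⟨k, k1, k2⟩ := ((eventually_ge_atTop n).and ((eventually_all_finite hF').2 fun x _ =>
        (eventually_all_finite hF').2 fun y _ => show ∀ᶠ k in atTop,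
          x ≠ y → Two n k (φ x) (φ y) by
            by_cases h : x = y
            · simp [h]
            · exact (two (h4 _ (φ1 x) _ (φ1 y) (φ2.ne h)) n).mono fun _ h _ => h)).exists
      have k3 : ∀ x, x ∈ W ⟨k, hF.toFinset.image fun z i => φ z i⟩ ↔
          ∃ y ∈ F, ∀ i < k, φ y i = φ x i := fun x => by
        simp [W, funext_iff, Fin.forall_iff]
      refine ⟨_, ⟨⟨k, hF.toFinset.image fun z i => φ z i⟩, ⟨k1, fun h => ?_, fun x hx y hy => ?_⟩,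
        rfl⟩, fun x hx => (k3 x).2 ⟨x, hx, fun _ _ => rfl⟩⟩
      · obtain ⟨y, y1, y2⟩ := (k3 z).1 (h.ge trivial)
        obtain ⟨i, j, -, b, c, d, -⟩ := k2 y (Or.inr y1) z (Or.inl rfl) fun h => hz (h ▸ y1)
        exact d (y2 i (b.trans c))
      · obtain ⟨x', x1, x2⟩ := (k3 x).1 hx
        obtain ⟨y', y1, y2⟩ := (k3 y).1 hy
        by_cases h : x' = y'
        · exact Or.inl fun i hi => (x2 i hi).symm.trans (h ▸ y2 i hi)
        · obtain ⟨i, j, a, b, c, d, d'⟩ := k2 x' (Or.inr x1) y' (Or.inr y1) h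
          exact Or.inr ⟨i, j, a, b, c, by rwa [← x2 i (b.trans c), ← y2 i (b.trans c)],
            by rwa [← x2 j c, ← y2 j c]⟩
    refine (hY (fun n => W '' {p | G n p}) fun n =>
      ⟨⟨(to_countable _).image _, ?_, ?_, ?_⟩, w1 n⟩).elim fun ℱ ⟨f1, f2, f3⟩ => ?_
    rotate_right
    · have f4 : ∀ n, ∃ k, ∀ U ∈ ℱ n, ∃ p, G n p ∧ W p = U ∧ p.1 ≤ k := fun n => by
        have : Nonempty (Σ k : ℕ, Finset (Fin k → Bool)) := ⟨⟨0, ∅⟩⟩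
        have h : ∀ U ∈ ℱ n, ∃ p, G n p ∧ W p = U := fun U hU => (f1 n).2 hU
        choose! π hπ using h
        obtain ⟨k, hk⟩ := ((f1 n).1.image fun U => (π U).1).bddAbove
        exact ⟨k, fun U hU => ⟨π U, (hπ U hU).1, (hπ U hU).2, hk ⟨U, hU, rfl⟩⟩⟩
      choose g hg using f4
      obtain ⟨x, hx, y, hy, h7, m, hm⟩ := h5 fun i => (Finset.range (i + 1)).sup g
      obtain ⟨i0, -, h8⟩ := h4 x hx y hy h7 0
      have f5 : ∀ U : Set (e '' Y), U ≠ Set.univ → ∃ z, z ∉ U := fun U h =>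
        (ne_univ_iff_exists_notMem U).1 h
      have : Nonempty (e '' Y) := ⟨⟨_, x, hx, rfl⟩⟩
      choose! ψ hψ using f5
      obtain ⟨U, u1, u2⟩ := f3 ({⟨_, x, hx, rfl⟩, ⟨_, y, hy, rfl⟩} ∪
        ψ '' ⋃ n ∈ Iic (max m i0), ℱ n) ((toFinite _).union
          (((finite_Iic _).biUnion fun n _ => (f1 n).1).image _))
      obtain ⟨n, hn⟩ := mem_iUnion.1 u1
      obtain ⟨p, ⟨p1, p2, p3⟩, rfl, p4⟩ := hg n U hn
      by_cases h : n ≤ max m i0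
      · exact hψ _ p2 (u2 (Or.inr ⟨_, mem_biUnion h hn, rfl⟩))
      · have := p3 _ (u2 (Or.inl (Or.inl rfl))) _ (u2 (Or.inl (Or.inr rfl)))
        simp only [φ, r3] at this
        rcases this with h9 | ⟨i, j, a, b, c, d, d'⟩
        · exact h8 (h9 i0 (by omega))
        · exact (c.trans_le p4).not_ge ((Finset.le_sup (f := g)
            (Finset.mem_range.2 (Nat.lt_succ_of_le a))).trans (hm i j (by omega) b d d'))
    · rintro _ ⟨p, -, rfl⟩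
      rw [← BorelSpace.measurable_eq]
      exact (measurable_pi_lambda _ fun i => (measurable_pi_apply _).comp
        (r1.comp measurable_subtype_coe)) (Finset.measurableSet p.2)
    · refine eq_univ_of_forall fun z => ?_
      obtain ⟨U, u1, u2⟩ := w1 n {z} (finite_singleton _)
      exact ⟨U, u1, u2 rfl⟩
    · rintro ⟨p, hp, h⟩
      exact hp.2.1 h

theorem pw {Z : Type} [TopologicalSpace Z] [MeasurableSpace Z] [BorelSpace Z]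
    {V : ℕ → ℕ → Set (ℝ × ℝ)} (v1 : ∀ n k, MeasurableSet (V n k))
    (v2 : ∀ n, ∀ z, ∀ᶠ k in atTop, z ∈ V n k) (v3 : ∀ n, Monotone (V n)) (π : Z → ℝ × ℝ)
    (p1 : Measurable π) (p2 : ∀ g : ℕ → ℕ, ∃ z, ∀ n, π z ∉ V n (g n)) :
    ¬ Sfin (BOm Z) (BCov Z) := by
  intro h
  have p3 : ∀ n F, F.Finite → ∃ U ∈ range fun j => π ⁻¹' V n j, F ⊆ U := fun n F hF => by
    obtain ⟨j, hj⟩ := ((eventually_all_finite hF).2 fun z _ => v2 n (π z)).exists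
    exact ⟨_, ⟨j, rfl⟩, hj⟩
  refine (h (fun n => range fun j => π ⁻¹' V n j) fun n =>
    ⟨⟨countable_range _, ?_, ?_, ?_⟩, p3 n⟩).elim fun ℱ ⟨f1, _, _, f2, _⟩ => ?_
  rotate_right
  · have f4 : ∀ n, ∃ j, ∀ U ∈ ℱ n, U ⊆ π ⁻¹' V n j := fun n => by
      have h : ∀ U ∈ ℱ n, ∃ j, π ⁻¹' V n j = U := fun U hU => (f1 n).2 hU
      choose! ι hι using h
      obtain ⟨j, hj⟩ := ((f1 n).1.image ι).bddAbove
      exact ⟨j, fun U hU => (hι U hU).ge.trans (preimage_mono (v3 n (hj ⟨U, hU, rfl⟩)))⟩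
    choose g hg using f4
    obtain ⟨z, hz⟩ := p2 g
    obtain ⟨U, u1, u2⟩ := f2.ge (mem_univ z)
    obtain ⟨n, hn⟩ := mem_iUnion.1 u1
    exact hz n (hg n U hn u2)
  · rintro _ ⟨j, rfl⟩
    rw [← BorelSpace.measurable_eq]
    exact p1 (v1 n j)
  · refine eq_univ_of_forall fun z => ?_
    obtain ⟨U, u1, u2⟩ := p3 n {z} (finite_singleton _)
    exact ⟨U, u1, u2 rfl⟩
  · rintro ⟨j, hj⟩
    obtain ⟨z, hz⟩ := p2 fun _ => j
    exact hz n (hj.ge trivial)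

theorem key0 (ch : continuum = (aleph 1 : Cardinal.{0})) : ∃ X Y : Set ℝ, Y ⊆ X ∧
    S1 (BOm X) (BGa X) ∧ (∀ k ≥ 2, ¬ Sfin (BOm (Pw X k)) (BCov (Pw X k)) ∧
      ¬ Sfin (BOm (Fin k → X)) (BCov (Fin k → X))) ∧
      ¬ Sfin (BOm Y) (BOm Y) := by
  obtain ⟨X, Y, h1, h2, ⟨V, v1, v2, v3, v4⟩, h3⟩ := real ch
  refine ⟨X, Y, h1, fun 𝒰 h𝒰 => ?_, fun k hk => ⟨?_, ?_⟩, h3⟩
  · have h4 : ∀ n, ∃ u : ℕ → Set X, 𝒰 n = range u := fun n => (h𝒰 n).1.1.exists_eq_range <| by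
      obtain ⟨U, hU, -⟩ := (h𝒰 n).2 ∅ finite_empty
      exact ⟨U, hU⟩
    choose u hu using h4
    have h5 : ∀ n j, u n j ∈ 𝒰 n := fun n j => (hu n).ge ⟨j, rfl⟩
    have h6 : ∀ n j, ∃ W, MeasurableSet W ∧ Subtype.val ⁻¹' W = u n j := fun n j => by
      have := (h𝒰 n).1.2.1 _ (h5 n j)
      rwa [← BorelSpace.measurable_eq] at this
    choose W w1 w2 using h6
    obtain ⟨g, hg⟩ := h2 W w1 fun n F hF hFX => by
      obtain ⟨U, h7, h8⟩ := (h𝒰 n).2 (Subtype.val ⁻¹' F) (hF.preimage Subtype.val_injective.injOn)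
      obtain ⟨j, rfl⟩ := (hu n).le h7
      exact ⟨j, fun x hx => (w2 n j).ge (h8 (show (⟨x, hFX hx⟩ : X) ∈ Subtype.val ⁻¹' F from hx))⟩
    have h7 : ∀ x : X, ∀ᶠ n in atTop, x ∈ u n (g n) := fun x =>
      (hg x x.2).mono fun n hn => (w2 n _).le hn
    have h8 : ∀ U ∈ range fun n => u n (g n), ∃ z, z ∉ U := by
      rintro _ ⟨n, rfl⟩
      by_contra h
      push Not at h
      exact (h𝒰 n).1.2.2.2 (eq_univ_of_forall h ▸ h5 n _)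
    refine ⟨fun n => u n (g n), fun n => h5 n _, ⟨countable_range _, ?_, ?_, fun h => ?_⟩,
      fun h => ?_, fun z => ?_⟩
    · rintro _ ⟨n, rfl⟩
      exact (h𝒰 n).1.2.1 _ (h5 n _)
    · refine eq_univ_of_forall fun z => ?_
      obtain ⟨n, hn⟩ := (h7 z).exists
      exact ⟨_, ⟨n, rfl⟩, hn⟩
    · obtain ⟨z, hz⟩ := h8 _ h
      exact hz trivial
    · choose ψ hψ using h8
      have := h.to_subtype
      obtain ⟨n, hn⟩ := (eventually_all.2 fun U : range fun n => u n (g n) => h7 (ψ U U.2)).exists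
      exact hψ _ ⟨n, rfl⟩ (hn ⟨_, n, rfl⟩)
    · have := h7 z
      rw [← Nat.cofinite_eq_atTop, eventually_cofinite] at this
      refine (this.image fun n => u n (g n)).subset ?_
      rintro _ ⟨⟨n, rfl⟩, hn⟩
      exact ⟨n, hn, rfl⟩
  · refine pw v1 v2 v3 (fun z => (z.1 ⟨0, by omega⟩, z.1 ⟨1, by omega⟩))
      (((measurable_pi_apply _).comp measurable_subtype_coe).prodMk
        ((measurable_pi_apply _).comp measurable_subtype_coe)) fun g => ?_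
    obtain ⟨x, hx, y, hy, h4⟩ := v4 g
    refine ⟨⟨fun i => if i.1 = 0 then x else y, fun i => ?_⟩, by simpa using h4⟩
    dsimp only
    split_ifs <;> assumption
  · refine pw v1 v2 v3 (fun z => (z ⟨0, by omega⟩, z ⟨1, by omega⟩))
      ((measurable_subtype_coe.comp (measurable_pi_apply _)).prodMk
        (measurable_subtype_coe.comp (measurable_pi_apply _))) fun g => ?_
    obtain ⟨x, hx, y, hy, h4⟩ := v4 g
    exact ⟨fun i => if i.1 = 0 then ⟨x, hx⟩ else ⟨y, hy⟩, by simpa using h4⟩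

theorem key (ch : continuum = (aleph 1 : Cardinal.{0})) : ∃ X Y : Set ℝ, Y ⊆ X ∧
    S1 (BOm X) (BGa X) ∧ (∀ k ≥ 2, ¬ Sfin (BOm (Pw X k)) (BCov (Pw X k))) ∧
      ¬ Sfin (BOm Y) (BOm Y) := by
  obtain ⟨X, Y, h1, h2, h3, h4⟩ := key0 ch
  exact ⟨X, Y, h1, h2, fun k hk => (h3 k hk).1, h4⟩

theorem key' (ch : continuum = (aleph 1 : Cardinal.{0})) : ∃ X : Set ℝ,
    S1 (BOm X) (BGa X) ∧ ∀ k ≥ 2, ¬ Sfin (BOm (Fin k → X)) (BCov (Fin k → X)) := by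
  obtain ⟨X, Y, -, h2, h3, -⟩ := key0 ch
  exact ⟨X, h2, fun k hk => (h3 k hk).2⟩

end Pool.Agent.H.MP_c8e566_gt
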